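import Pool.Agent.V11328.Dep

/-! First and second moments for locally dependent random graphs. -/

open MeasureTheory ProbabilityTheory Finset unitInterval

namespace Pool.Agent.V11328.C6

open Pool.Agent.V11328.Dep

variable {n d : ℕ} {p : ℝ} {μ : Measure (SimpleGraph (Fin n))}

/-- The event that `e` is an edge. -/
def ev (e : Prs n) : Set (SimpleGraph (Fin n)) := {G | e.1 ∈ G.edgeSet}

lemma pair_prob [IsProbabilityMeasure μ] (hedge : ∀ e : Prs n, μ.real (ev e) = p)
    {D : SimpleGraph (Prs n)} {e f : Prs n} (hne : f ≠ e) (hD : ¬ D.Adj e f)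
    (h : IndepFun (fun G : SimpleGraph (Fin n) => (e.1 ∈ G.edgeSet : Prop))
      (fun (G : SimpleGraph (Fin n)) (f : {f : Prs n // f ≠ e ∧ ¬ D.Adj e f}) =>
        (f.1.1 ∈ G.edgeSet : Prop)) μ) : μ.real (ev e ∩ ev f) = p * p := by
  have hcomp := h.comp (φ := id)
    (ψ := fun g : {f : Prs n // f ≠ e ∧ ¬ D.Adj e f} → Prop => g ⟨f, hne, hD⟩) measurable_id
    (measurable_of_finite _)
  rw [indepFun_iff_measure_inter_preimage_eq_mul] at hcomp
  have h1 := hcomp {True} {True} (measurableSet_singleton _) (measurableSet_singleton _)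
  have e1 : (id ∘ fun G : SimpleGraph (Fin n) => (e.1 ∈ G.edgeSet : Prop)) ⁻¹' {True} = ev e := by
    ext G; simp [ev]
  have e2 : ((fun g : {f : Prs n // f ≠ e ∧ ¬ D.Adj e f} → Prop => g ⟨f, hne, hD⟩) ∘
      fun (G : SimpleGraph (Fin n)) (f : {f : Prs n // f ≠ e ∧ ¬ D.Adj e f}) =>
        (f.1.1 ∈ G.edgeSet : Prop)) ⁻¹' {True} = ev f := by
    ext G; simp [ev]
  rw [e1, e2] at h1
  rw [measureReal_def, h1, ENNReal.toReal_mul, ← measureReal_def, ← measureReal_def, hedge, hedge]

/-- Number of edges. -/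
noncomputable def ecount (G : SimpleGraph (Fin n)) : ℕ := G.edgeSet.ncard

open Classical in
lemma ecount_eq (G : SimpleGraph (Fin n)) : ecount G = #(univ.filter (fun e : Prs n => G ∈ ev e)) := by
  rw [ecount, ← Set.ncard_coe_finset, ← Set.ncard_image_of_injective _ Subtype.val_injective]
  congr 1
  ext e
  simp only [Set.mem_image, coe_filter, mem_univ, true_and, Set.mem_ofPred_eq, ev]
  constructor
  · intro h
    exact ⟨⟨e, G.not_isDiag_of_mem_edgeSet h⟩, h, rfl⟩
  · rintro ⟨f, hf, rfl⟩
    exact hf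

open Classical in
lemma ecount_sum (G : SimpleGraph (Fin n)) :
    (ecount G : ℝ) = ∑ e : Prs n, if G ∈ ev e then (1 : ℝ) else 0 := by
  rw [ecount_eq, Finset.card_filter]
  push_cast
  rfl

/-- Weights. -/
noncomputable def wt (μ : Measure (SimpleGraph (Fin n))) (G : SimpleGraph (Fin n)) : ℝ := μ.real {G}

open Classical in
lemma real_eq_sum [IsProbabilityMeasure μ] (S : Set (SimpleGraph (Fin n))) :
    μ.real S = ∑ G : SimpleGraph (Fin n), wt μ G * (if G ∈ S then 1 else 0) := by
  have h : (↑(univ.filter (· ∈ S)) : Set (SimpleGraph (Fin n))) = S := by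
    ext G; simp
  conv_lhs => rw [← h]
  rw [← sum_measureReal_singleton, Finset.sum_filter]
  refine Finset.sum_congr rfl fun G _ => ?_
  split_ifs <;> simp [wt]

lemma wt_nonneg (G : SimpleGraph (Fin n)) : 0 ≤ wt μ G := measureReal_nonneg

open Classical in
lemma wt_sum [IsProbabilityMeasure μ] : ∑ G : SimpleGraph (Fin n), wt μ G = 1 := by
  have := real_eq_sum (μ := μ) Set.univ
  simp at this
  exact this.symm

/-- The total number of pairs. -/
def NN (n : ℕ) : ℕ := Fintype.card (Prs n)

lemma NN_eq (n : ℕ) : NN n = n.choose 2 := by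
  rw [NN, Sym2.card_subtype_not_diag, Fintype.card_fin]

open Classical in
lemma mean [IsProbabilityMeasure μ] (hedge : ∀ e : Prs n, μ.real (ev e) = p) :
    ∑ G : SimpleGraph (Fin n), wt μ G * (ecount G : ℝ) = NN n * p := by
  simp_rw [ecount_sum, Finset.mul_sum]
  rw [Finset.sum_comm]
  have : ∀ e : Prs n, ∑ G : SimpleGraph (Fin n), wt μ G * (if G ∈ ev e then (1 : ℝ) else 0) = p := by
    intro e
    rw [← real_eq_sum, hedge]
  rw [Finset.sum_congr rfl (fun e _ => this e), Finset.sum_const, card_univ, nsmul_eq_mul]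
  rfl

/-- Markov inequality for the number of edges. -/
lemma markov [IsProbabilityMeasure μ] (hedge : ∀ e : Prs n, μ.real (ev e) = p) (m : ℕ) :
    μ.real {G | m ≤ ecount G} * m ≤ NN n * p := by
  classical
  rw [← mean hedge, real_eq_sum, Finset.sum_mul]
  refine Finset.sum_le_sum fun G _ => ?_
  rw [mul_assoc]
  refine mul_le_mul_of_nonneg_left ?_ (wt_nonneg G)
  by_cases h : m ≤ ecount G
  · rw [if_pos (by exact h), one_mul]
    exact_mod_cast h
  · rw [if_neg (by exact h), zero_mul]
    positivity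

open Classical in
/-- Variance bound. -/
lemma variance [IsProbabilityMeasure μ] (h : IsDep n d p μ) :
    ∑ G : SimpleGraph (Fin n), wt μ G * ((ecount G : ℝ) - NN n * p) ^ 2 ≤ NN n * ((d + 1) * p) := by
  have hedge : ∀ e : Prs n, μ.real (ev e) = p := h.edge
  obtain ⟨D, hD, hind⟩ := h.dep
  have hp0 : ∀ e : Prs n, 0 ≤ p := fun e => by rw [← hedge e]; exact measureReal_nonneg
  -- expand the square
  have hexp : ∀ G : SimpleGraph (Fin n), ((ecount G : ℝ) - NN n * p) ^ 2 =
      ∑ e : Prs n, ∑ f : Prs n, ((if G ∈ ev e then (1 : ℝ) else 0) - p) *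
        ((if G ∈ ev f then (1 : ℝ) else 0) - p) := by
    intro G
    rw [← Finset.sum_mul_sum, ← sq]
    congr 1
    rw [Finset.sum_sub_distrib, ← ecount_sum, Finset.sum_const, card_univ, nsmul_eq_mul]
    rfl
  simp_rw [hexp, Finset.mul_sum]
  rw [Finset.sum_comm]
  have hrow : ∀ e : Prs n, ∑ G : SimpleGraph (Fin n), ∑ f : Prs n, wt μ G *
      (((if G ∈ ev e then (1 : ℝ) else 0) - p) * ((if G ∈ ev f then (1 : ℝ) else 0) - p)) ≤
      (d + 1) * p := by
    intro e
    rw [Finset.sum_comm]
    -- covariance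
    have hcov : ∀ f : Prs n, ∑ G : SimpleGraph (Fin n), wt μ G *
        (((if G ∈ ev e then (1 : ℝ) else 0) - p) * ((if G ∈ ev f then (1 : ℝ) else 0) - p)) =
        μ.real (ev e ∩ ev f) - p * p := by
      intro f
      have h1 : ∀ G : SimpleGraph (Fin n), wt μ G *
          (((if G ∈ ev e then (1 : ℝ) else 0) - p) * ((if G ∈ ev f then (1 : ℝ) else 0) - p)) =
          wt μ G * (if G ∈ ev e ∩ ev f then (1 : ℝ) else 0)
            - p * (wt μ G * (if G ∈ ev e then (1 : ℝ) else 0))
            - p * (wt μ G * (if G ∈ ev f then (1 : ℝ) else 0)) + p * p * wt μ G := by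
        intro G
        by_cases he : G ∈ ev e <;> by_cases hf : G ∈ ev f <;> simp [he, hf] <;> ring
      have h4 : ∑ G : SimpleGraph (Fin n), wt μ G * (if G ∈ ev e ∩ ev f then (1 : ℝ) else 0) =
          μ.real (ev e ∩ ev f) := by
        rw [real_eq_sum]
        refine Finset.sum_congr rfl fun G _ => ?_
        by_cases hG : G ∈ ev e ∩ ev f
        · rw [if_pos hG, if_pos hG]
        · rw [if_neg hG, if_neg hG]
      simp_rw [h1]
      rw [Finset.sum_add_distrib, Finset.sum_sub_distrib, Finset.sum_sub_distrib, h4,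
        ← Finset.mul_sum, ← Finset.mul_sum, ← Finset.mul_sum, ← real_eq_sum, ← real_eq_sum,
        hedge, hedge, wt_sum]
      ring
    rw [Finset.sum_congr rfl (fun f _ => hcov f)]
    have hle : ∀ f : Prs n, μ.real (ev e ∩ ev f) - p * p ≤ if f = e ∨ D.Adj e f then p else 0 := by
      intro f
      split_ifs with hc
      · have h2 : μ.real (ev e ∩ ev f) ≤ p := by
          rw [← hedge e]
          exact measureReal_mono Set.inter_subset_left (measure_ne_top _ _)
        nlinarith [hp0 e]
      · rw [not_or] at hc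
        rw [pair_prob hedge hc.1 hc.2 (hind e), sub_self]
    refine (Finset.sum_le_sum fun f _ => hle f).trans ?_
    rw [← Finset.sum_filter, Finset.sum_const, nsmul_eq_mul]
    refine mul_le_mul_of_nonneg_right ?_ (hp0 e)
    have h3 : univ.filter (fun f : Prs n => f = e ∨ D.Adj e f) ⊆
        insert e (univ.filter (fun f : Prs n => D.Adj e f)) := by
      intro f hf
      simp only [mem_filter, mem_univ, true_and, mem_insert] at hf ⊢
      exact hf
    have h4 := (card_le_card h3).trans (card_insert_le _ _)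
    have h5 : #(univ.filter (fun f : Prs n => D.Adj e f)) ≤ d := by
      refine le_trans (le_of_eq ?_) (hD e)
      rw [← Set.ncard_coe_finset]
      congr 1
      ext f; simp
    exact_mod_cast h4.trans (Nat.succ_le_succ h5)
  refine (Finset.sum_le_sum fun e _ => hrow e).trans ?_
  rw [Finset.sum_const, card_univ, nsmul_eq_mul]
  rfl

/-- Chebyshev inequality. -/
lemma few_edges [IsProbabilityMeasure μ] (h : IsDep n d p μ) {m : ℕ}
    (hm : 2 * (m : ℝ) ≤ NN n * p) :
    μ.real {G | ecount G < m} * (NN n * p / 2) ^ 2 ≤ NN n * ((d + 1) * p) := by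
  classical
  refine le_trans ?_ (variance h)
  rw [real_eq_sum, Finset.sum_mul]
  refine Finset.sum_le_sum fun G _ => ?_
  rw [mul_assoc]
  refine mul_le_mul_of_nonneg_left ?_ (wt_nonneg G)
  by_cases hG : ecount G < m
  · rw [if_pos (by exact hG), one_mul]
    have h1 : (ecount G : ℝ) ≤ m := by exact_mod_cast hG.le
    have h2 : (0 : ℝ) ≤ m := Nat.cast_nonneg m
    nlinarith
  · rw [if_neg (by exact hG), zero_mul]
    positivity

/-- Union bound for the existence of an edge. -/
lemma some_edge [IsProbabilityMeasure μ] (hedge : ∀ e : Prs n, μ.real (ev e) = p) :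
    μ.real {G | 1 ≤ ecount G} ≤ NN n * p := by
  have := markov hedge 1
  simpa using this

end Pool.Agent.V11328.C6
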